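import Pool.Agent.U536.DS.U
import Pool.Agent.Results.MP_8da9ea_nt.MultiplicativeValues

/-!
# The elliptico-toric inequality in bounded degree for almost all tuples of the integral combinations of two divisors of the
values of multiplicative functions

Let `F_1, ..., F_(n+s)` be positive multiplicative functions of at most polynomial growth such that `F_i p ≤ M p` for the
large primes `p`, with different values at different large primes; for example Euler's function or the sum of the divisors.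
Let `b < 1`, `μ < b` and `0 ≤ c < 2 b - 1`. Let `Λ` be a lattice with rational invariants, `A_i ≠ 0` and `B_i` integers,
`(z, y)` any point of `ℂⁿ × ℂˢ` and `x_1, …, x_q` any complex numbers. For all tuples `m` in `[1, N]^(n+s)` but `N^(n+s) exp
(-(log N)^c)`, for EVERY tuple `w` of integers `w_i ≥ exp ((log N)^b)` of the form `w_i = u e + u' e'` with divisors `e`,
`e'` of `F_i(m_i)` and integers `|u|, |u'| ≤ exp ((log N)^μ)` (depending on `i`) such that `w_i ≥ w_j^ρ` for all `i`, `j`,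
all translates of `(z, y)` by logarithms of the point of `E^n × G_m^s` given by `α_i = A_i w_i + B_i` are free over their
points and the constants `x_1, …, x_q`; `ρ < 1` depends only on `Λ`, `n`, `s`, `q` and the degrees `δ`, `d`, and the bound
`N ≥ N₀` does not depend on `(z, y)` and `x`. The tuples `w` include all tuples of comparable size of large sums and
differences `w_i` of ANY two divisors of the `F_i(m_i)`.

Proof. But for few exceptional `m_i ≤ N`, the number of `m_i` with `g ∣ F_i(m_i)` is at most `N τ_J(g) / g` up to a factor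
`exp ((log N)^s)`, `J = (log N)^a`, `a < s < b`, for all `g`: write `m_i = k v` with `v` squarefree and composed of primes
larger than `N^(1/J)`, `k ≤ exp (4 (log N)^a)`. Take for `g` the least common multiples of the pairs `(e, e')`: the sum of
`1 / [e, e']` over the pairs `e, e' ≤ X` with `u e + u' e' = w` is at most `4 U (1 + log X) τ(w) / w` if `|u|, |u'| ≤ U`;
the exceptional tuples `w` are few, and the inequality `τ_J^q ≤ τ_K` for `K ≥ J^q` with Hölder's inequality for tuples
bounds the sum over the tuples of pairs. The tuples of the hand-in `CommonFactors` of this page have large common factors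
with the `F_i(m_i)`; the sums and differences of two divisors of `F_i(m_i)` have in general none. The file
`MultiplicativeValues` of the starting library treats the tuples `w = (F_i(m_i))` only, with `N^k / (log N)^U` exceptions.
-/

set_option autoImplicit false

namespace Pool.Agent.Results.MP_8da9ea_nt.DivisorSums

open scoped PeriodPair
open Pool.Agent.Results.MP_8da9ea_nt.AlmostAllTranslates (FreeOverPoints IsTranslate)
open Pool.Agent.N733.TG (LM lm_totient lm_sigma)
open Pool.Agent.U536.CF (exists_rho)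
open Pool.Agent.U536.DS (CombT avoidT2 combT_pm)
open Pool.Agent.Results.MP_8da9ea_nt.MultiplicativeValues (aint_int)

/-- **The elliptico-toric inequality in bounded degree for almost all tuples of the integral combinations of two divisors of the
values of multiplicative functions.** Let `Λ` be a lattice with rational invariants, `A_i ≠ 0` and `B_i` integers, `(z, y)`
any point of `ℂⁿ × ℂˢ` and `x_1, …, x_q` any complex numbers. Let the `F_i` be multiplicative and positive, of at most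
polynomial growth, with `F_i p ≤ M p` at the large primes, and injective there. Let `b < 1`, `μ < b` and `0 ≤ c < 2 b - 1`.
For all large `N`, for all tuples `m` in `[1, N]^(n+s)` but `N^(n+s) exp (-(log N)^c)`, for EVERY tuple `w` of integers `w_i
≥ exp ((log N)^b)` of the form `w_i = u e + u' e'` with divisors `e`, `e'` of `F_i(m_i)` and integers `|u|, |u'| ≤ exp ((log
N)^μ)` (depending on `i`) with `w_i ≥ w_j^ρ` for all `i`, `j`, all translates of `(z, y)` by logarithms of the point of `E^n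
× G_m^s` given by `α_i = A_i w_i + B_i` are free over their points and the constants `x_1, …, x_q`; `ρ < 1` depends only on
`Λ`, `n`, `s`, `q` and the degrees `δ`, `d`, and the bound `N ≥ N₀` does not depend on `(z, y)` and `x`. The tuples of sums
and differences `w_i ≥ exp ((log N)^b)` of two divisors of the `F_i(m_i)` with `w_j^ρ ≤ w_i` for all `i`, `j` are such
tuples. Euler's function and the sum of the divisors are examples of the `F_i`. -/
theorem result :
    (∀ (Λ : PeriodPair) (g g' : ℚ), Λ.g₂ = g → Λ.g₃ = g' → ∀ (n s q : ℕ), 1 ≤ n + s → ∀ δ d : ℕ,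
      ∃ ρ : ℝ, 0 < ρ ∧ ρ < 1 ∧ ∀ F : Fin (n + s) → ℕ → ℕ, (∀ i, LM (F i)) → ∀ A B : Fin (n + s) → ℤ, (∀ i, A i ≠ 0) →
      ∀ b μ c : ℝ, μ < b → b < 1 → 0 ≤ c → c < 2 * b - 1 →
      ∃ N₀ : ℕ, ∀ N : ℕ, N₀ ≤ N → ∀ (x : Fin q → ℂ) (z : Fin n → ℂ) (y : Fin s → ℂ),
        ({m : Fin (n + s) → ℕ | (∀ i, 1 ≤ m i ∧ m i ≤ N) ∧ ¬ ∀ w : Fin (n + s) → ℕ, CombT F b μ ρ N m w →
          ∀ (p : Fin n → ℂ) (t : Fin s → ℂ),
          IsTranslate Λ z y (fun i => ((A i * w i + B i : ℤ) : ℂ)) p t → FreeOverPoints Λ δ d x p t}.ncard : ℝ) ≤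
          (N : ℝ) ^ (n + s) * Real.exp (-(Real.log N ^ c))) ∧
    (LM Nat.totient ∧ LM (fun m => ∑ d ∈ m.divisors, d)) ∧
    ∀ (k : ℕ) (F : Fin k → ℕ → ℕ) (b μ ρ : ℝ) (N : ℕ) (m w : Fin k → ℕ), (∀ i, Real.exp (Real.log N ^ b) ≤ (w i : ℝ)) →
      (∀ i, ∃ s t : ℕ, s ∣ F i (m i) ∧ t ∣ F i (m i) ∧ (w i = s + t ∨ w i = s - t ∨ w i = s)) →
      (∀ i j, (w j : ℝ) ^ ρ ≤ (w i : ℝ)) → CombT F b μ ρ N m w := by
  refine ⟨?_, ⟨lm_totient, lm_sigma⟩, fun k F b μ ρ N m w h1 h2 h3 => combT_pm h1 h2 h3⟩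
  intro Λ a b ha hb n s q hns δ d
  obtain ⟨c, hc, C, hC, h⟩ := Pool.Agent.Y916.Sch.tupP Λ a b ha hb n s q 1 δ d le_rfl
  have hMm : Pool.Agent.Y916.Sl.Mm 1 = 1 := by rw [Pool.Agent.Y916.Sl.Mm_eq]
  rw [hMm, mul_one] at h
  obtain ⟨ρ, hρ0, hρ1, hρ⟩ := exists_rho hns hc
  refine ⟨ρ, hρ0, hρ1, fun F hF A B hA b₁ μ c₁ hμ hb₁ hc₁ hcb => ?_⟩
  obtain ⟨R, hR⟩ : ∃ R : ℕ, R = 1 + ∑ i, ((A i).natAbs + (B i).natAbs) := ⟨_, rfl⟩
  have hR1 : 1 ≤ R := by rw [hR]; omega
  obtain ⟨N₀, hN₀⟩ := avoidT2 hns hF hρ0 hρ1.le hρ (C * (R : ℝ) ^ (((n + s : ℕ) : ℝ) - c)) hμ hb₁ hc₁ hcb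
  refine ⟨N₀, fun N hN w z y => ?_⟩
  obtain ⟨φ, hφ⟩ : ∃ φ : (Fin (n + s) → ℕ) → (Fin (n + s) → ℂ), φ = fun v i => ((A i * v i + B i : ℤ) : ℂ) := ⟨_, rfl⟩
  have hinj : Function.Injective φ := by
    intro v v' hv
    funext i
    have h1 : ((A i * v i + B i : ℤ) : ℂ) = ((A i * v' i + B i : ℤ) : ℂ) := by
      have := congrFun hv i
      rw [hφ] at this
      exact this
    have h2 : A i * v i + B i = A i * v' i + B i := by exact_mod_cast h1
    have h3 : A i * ((v i : ℤ) - v' i) = 0 := by linarith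
    rcases mul_eq_zero.1 h3 with h4 | h4
    · exact absurd h4 (hA i)
    · exact_mod_cast sub_eq_zero.1 h4
  have h1 := hN₀ N hN {v | ¬ ∀ (p : Fin n → ℂ) (t : Fin s → ℂ), IsTranslate Λ z y (φ v) p t → FreeOverPoints Λ δ d w p t}
    (fun X hX => ?_)
  · refine le_trans ?_ h1
    have hfin : {m : Fin (n + s) → ℕ | ∀ i, 1 ≤ m i ∧ m i ≤ N}.Finite := by
      apply (Finset.finite_toSet (Fintype.piFinset fun _ : Fin (n + s) => Finset.Icc 1 N)).subset
      intro m hm
      rw [Finset.mem_coe, Fintype.mem_piFinset]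
      exact fun i => Finset.mem_Icc.2 (hm i)
    refine Nat.cast_le.2 (Set.ncard_le_ncard ?_ (hfin.subset fun m hm => hm.1))
    rintro m ⟨hm1, hm2⟩
    refine ⟨hm1, ?_⟩
    by_contra hcon
    apply hm2
    intro v hv
    by_contra hE
    refine hcon ⟨v, ?_, hv⟩
    rw [hφ]
    exact hE
  · have hX0 : (0 : ℝ) ≤ X := Nat.cast_nonneg X
    have hR0 : (0 : ℝ) ≤ R := Nat.cast_nonneg R
    obtain ⟨hf, hle⟩ := h w z y (R * X) (Nat.mul_pos hR1 hX)
    have e1 : C * ((R * X : ℕ) : ℝ) ^ (((n + s : ℕ) : ℝ) - c) =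
        C * (R : ℝ) ^ (((n + s : ℕ) : ℝ) - c) * (X : ℝ) ^ (((n + s : ℕ) : ℝ) - c) := by
      rw [Nat.cast_mul, Real.mul_rpow hR0 hX0, mul_assoc]
    rw [← e1]
    refine le_trans (Nat.cast_le.2 ?_) hle
    refine Set.ncard_le_ncard_of_injOn φ ?_ hinj.injOn hf
    rintro v ⟨hv1, hv2⟩
    refine ⟨fun i => ?_, ?_⟩
    · rw [hφ]
      refine aint_int ?_
      have e2 : (((A i).natAbs + (B i).natAbs : ℕ) : ℝ) ≤ R := by
        rw [hR]
        have := Finset.single_le_sum (f := fun i => (A i).natAbs + (B i).natAbs) (fun i _ => Nat.zero_le _) (Finset.mem_univ i)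
        exact_mod_cast this.trans (Nat.le_add_left _ _)
      have e3 : (1 : ℝ) ≤ X := by exact_mod_cast hX
      have e4 : ((v i : ℕ) : ℝ) ≤ X := by exact_mod_cast (hv1 i).2
      have e5 : |((A i * v i + B i : ℤ) : ℝ)| ≤ |((A i : ℤ) : ℝ)| * v i + |((B i : ℤ) : ℝ)| := by
        push_cast
        refine (abs_add_le _ _).trans ?_
        rw [abs_mul, Nat.abs_cast]
      have e6 : (((A i).natAbs + (B i).natAbs : ℕ) : ℝ) = |((A i : ℤ) : ℝ)| + |((B i : ℤ) : ℝ)| := by
        push_cast
        rw [Nat.cast_natAbs, Nat.cast_natAbs, Int.cast_abs, Int.cast_abs]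
      push_cast
      rw [e6] at e2
      have e7 := abs_nonneg ((A i : ℤ) : ℝ)
      have e8 := abs_nonneg ((B i : ℤ) : ℝ)
      push_cast at e5
      nlinarith [mul_le_mul_of_nonneg_left e4 e7, mul_le_mul_of_nonneg_left e3 e8, mul_le_mul_of_nonneg_right e2 hX0]
    · simp only [not_forall, Set.mem_ofPred_eq] at hv2
      obtain ⟨p, t, hu, hF'⟩ := hv2
      exact ⟨p, t, hu.1, hu.2, hF'⟩

end Pool.Agent.Results.MP_8da9ea_nt.DivisorSums
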