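import Pool.Agent.U449.BV.VU
import Pool.Agent.Results.MP_8da9ea_nt.AlmostAllTranslates

/-!
# The elliptico-toric inequality in bounded degree near the coordinates of polynomials on arbitrary sets

Let `E : y² = 4 x³ - g₂ x - g₃` be an elliptic curve with rational `g₂`, `g₃` and lattice `Λ`, and let `(z, y)` be any point of the Lie
algebra `ℂⁿ × ℂˢ` of `E^n × G_m^s`; `k = n + s`. There is `c > 0` such that the following holds for `κ ≥ 0`, `k - c + k κ < δ ≤ k`. Let `p` be
a large prime, `f(x, y)` ANY polynomial of degree at most `D` over the field of `p ^ k` elements with a monomial which contains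
both variables (for example `f = x y`), let `A`, `B` be ARBITRARY subsets of this field with at least `p ^ δ` elements, and `g`, `h`
ARBITRARY functions. For all the pairs `(a, b)` in `A × B`, apart from a proportion of at most `p ^ (-ρ)`, and for ALL tuples `α` of
integers at a distance of at most `p ^ κ` from the tuple of the least residues of the `k` coordinates of `f(a, b) + g(a) + h(b)`: for
all translates of `(z, y)` by logarithms of the points given by `α` (`℘(p_i - z_i) = α_i`, `exp(t_l - y_l) = α_(n+l)`), every polynomial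
relation of bounded degree over number fields of bounded degree, of any height, between arbitrary constants `w_1, …, w_q` (for
instance `ω₁, ω₂, η₁, η₂`), the numbers `p_i`, `ζ(p_i)`, `t_l` and the numbers `℘(p_i)`, `℘'(p_i)`, `exp(t_l)` is an identity in the
numbers `p_i`, `ζ(p_i)`, `t_l`. How large `p` has to be does not depend on `(z, y)` and `w`. More generally, this holds for the values
`F(a, b)` of all vector functions of two variables with few coincidences (`RareV`), on arbitrary finite sets.

Since the sets and the functions `g` and `h` are arbitrary, the tuples have no arithmetic structure, and a tuple may be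
taken by very many pairs. So the number of the exceptions (starting library) does not give the result directly. Proof: the
inequality of Cauchy and Schwarz; for most pairs `a, a'` the difference `F(a, b) - F(a', b)` is small for few `b`
(`Pool.Agent.U449.BV`).
-/

set_option autoImplicit false

namespace Pool.Agent.Results.MP_8da9ea_nt.MixedPolynomials

open scoped PeriodPair
open Finset
open Pool.Agent.U449.BV (RareV OnProductsU on_products_int_saving coordinates)
open Pool.Agent.Results.MP_8da9ea_nt.AlmostAllTranslates (zeta logarithms points FreeOverPoints IsTranslate)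

/-- ALL tuples `α` of integers with `|α_i - x_i| ≤ W` for all `i` have the following property: all translates of `(z, y)` by
logarithms of the point given by `α` are free over their points and `w`. -/
def Near (Λ : PeriodPair) (δ d : ℕ) {n s q : ℕ} (w : Fin q → ℂ) (z : Fin n → ℂ) (y : Fin s → ℂ) (W : ℝ)
    (x : Fin (n + s) → ℝ) : Prop :=
  ∀ α : Fin (n + s) → ℤ, (∀ i, |(α i : ℝ) - x i| ≤ W) → ∀ (p : Fin n → ℂ) (t : Fin s → ℂ),
    IsTranslate Λ z y (fun i => ((α i : ℤ) : ℂ)) p t → FreeOverPoints Λ δ d w p t

/-- an integer of absolute value at most `T` is an algebraic integer of degree one with conjugates at most `T` -/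
lemma aint_int {T : ℝ} {x : ℤ} (hx : |(x : ℝ)| ≤ T) : Pool.Agent.Y916.Sl.AInt 1 T (x : ℂ) := by
  refine ⟨Polynomial.X - Polynomial.C x, Polynomial.monic_X_sub_C x, Polynomial.natDegree_X_sub_C x, by simp, fun z hz => ?_⟩
  have h1 : z = (x : ℂ) := by
    simpa [sub_eq_zero] using hz
  rw [h1, Complex.norm_intCast]
  exact hx

/-- **Theorem.** Let `Λ` be a lattice with rational invariants, `k = n + s ≥ 1` and `q`, `δ'`, `d'` natural numbers. There is `c > 0` such
that for all `κ ≥ 0` the property `Near`, with windows of length `X ^ κ`, holds, uniformly in `w_1, …, w_q ∈ ℂ` and `(z, y)` in `ℂⁿ × ℂˢ`,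
for almost all values of vector functions of two variables with few coincidences, on arbitrary finite sets of at least `X ^ δ`
elements, `k - c + k κ < δ ≤ k` (`OnProductsU`).
The tuples of the least residues modulo `p` of the coordinates (with respect to a basis over the field of `p` elements) of
`f(a, b) + g(a) + h(b)` in a field of `p ^ k` elements are such a function, with `X = p`, for all polynomials `f` over this
field with a monomial which contains both variables, arbitrary functions `g` and `h`, and arbitrary finite subsets. -/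
theorem result :
    (∀ (Λ : PeriodPair) (a b : ℚ), Λ.g₂ = a → Λ.g₃ = b → ∀ n s q : ℕ, 1 ≤ n + s → ∀ δ' d' : ℕ, ∃ c : ℝ, 0 < c ∧
      ∀ κ : ℝ, 0 ≤ κ → OnProductsU (n + s) (((n + s : ℕ) : ℝ) - c + ((n + s : ℕ) : ℝ) * κ) κ
        (fun ω : (Fin q → ℂ) × (Fin n → ℂ) × (Fin s → ℂ) => Near Λ δ' d' ω.1 ω.2.1 ω.2.2)) ∧
    ∀ (p : ℕ) [Fact p.Prime] (k : ℕ) (K : Type) [Field K] [Algebra (ZMod p) K] (e : Module.Basis (Fin k) (ZMod p) K)
      (d : ℕ) (f : MvPolynomial (Fin 2) K), f.totalDegree ≤ d → (∃ m ∈ f.support, m 0 ≠ 0 ∧ m 1 ≠ 0) →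
      ∀ (g h : K → K) (A B : Finset K),
        RareV d A B (fun a b i => (((e.repr (MvPolynomial.eval ![a, b] f + g a + h b) i).val : ℕ) : ℝ)) := by
  refine ⟨fun Λ a b ha hb n s q hns δ d => ?_, coordinates⟩
  obtain ⟨c, hc, C, hC, h⟩ := Pool.Agent.Y916.Sch.tupP Λ a b ha hb n s q 1 δ d le_rfl
  have hMm : Pool.Agent.Y916.Sl.Mm 1 = 1 := by rw [Pool.Agent.Y916.Sl.Mm_eq]
  rw [hMm, mul_one] at h
  have hk1 : (0 : ℝ) < ((n + s : ℕ) : ℝ) := by exact_mod_cast hns
  refine ⟨min c ((n + s : ℕ) : ℝ), lt_min hc hk1, fun κ hκ => ?_⟩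
  refine (on_products_int_saving (k := n + s) (Ω := (Fin q → ℂ) × (Fin n → ℂ) × (Fin s → ℂ))
    (fun ω => {α : Fin (n + s) → ℤ | ¬ ∀ (p : Fin n → ℂ) (t : Fin s → ℂ),
      IsTranslate Λ ω.2.1 ω.2.2 (fun i => ((α i : ℤ) : ℂ)) p t → FreeOverPoints Λ δ d ω.1 p t}) (c := c) (C := C) hκ
    (fun ω X hX => ?_)).mono id (fun ω W x _ h' α hα => not_not.1 (h' α hα))
  obtain ⟨w, z, y⟩ := ω
  dsimp only
  obtain ⟨hf, hle⟩ := h w z y X hX
  refine le_trans (Nat.cast_le.2 ?_) hle
  refine Set.ncard_le_ncard_of_injOn (fun v i => ((v i : ℤ) : ℂ)) ?_ ?_ hf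
  · rintro v ⟨hv1, hv2⟩
    refine ⟨fun i => aint_int ?_, ?_⟩
    · rw [← Int.cast_abs]
      exact_mod_cast hv1 i
    · simp only [not_forall, Set.mem_ofPred_eq] at hv2
      obtain ⟨p, t, hu, hF'⟩ := hv2
      exact ⟨p, t, hu.1, hu.2, hF'⟩
  · intro v _ v' _ hvv
    funext i
    have h0 : ((v i : ℤ) : ℂ) = ((v' i : ℤ) : ℂ) := congr_fun hvv i
    exact_mod_cast h0

end Pool.Agent.Results.MP_8da9ea_nt.MixedPolynomials
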