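import Pool.Agent.U405.RS.G5
import Pool.Agent.Results.MP_8da9ea_nt.MultiplicativeValues

/-!
# The elliptico-toric inequality in bounded degree over values of multiplicative functions in thin sets

Let `F_1, …, F_k` be positive multiplicative functions of at most polynomial growth which for each `a ≥ 1` are injective at the
powers `p ^ a` of the large primes and at most `M p ^ a` there; for example Euler's function or the sum of the divisors. Let `E : y² = 4 x³ - g₂ x - g₃` be an elliptic curve with rational `g₂`, `g₃` and lattice `Λ`, and let `(z, y)` be any point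
of the Lie algebra `ℂⁿ × ℂˢ` of `E^n × G_m^s`, `k = n + s`, and let `A_i ≠ 0`, `B_i` be integers. We translate `(z, y)` by logarithms
of the points with the coordinates `α_i = A_i F_i(m_i) + B_i`: `℘(p_i - z_i) = α_i` for `i = 1, ..., n` and
`exp(t_l - y_l) = α_(n+l)` for `l = 1, ..., s`. For almost all `m` in products of thin sets every polynomial relation of bounded
degree over number fields of bounded degree, of any height, between arbitrary constants `w_1, ..., w_q` (for instance
`ω₁, ω₂, η₁, η₂`), the numbers `p_i`, `ζ(p_i)`, `t_l` and the numbers `℘(p_i)`, `℘'(p_i)`, `exp(t_l)` is an identity in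
the numbers `p_i`, `ζ(p_i)`, `t_l`.

The starting theorem `MultiplicativeValues` of this problem treats the average over all tuples `m ∈ [1, N]^k`. Here each `m_i` runs
over a thin set: the shifted primes `p + a_i`, `p ≤ x`, for an arbitrary integer `a_i`, or an interval `(u, u + h]` with
`x^τ ≤ h ≤ x`, where `u ≤ x` and `1 - c / k < τ ≤ 1`; both kinds can be mixed. The tuples of values `(F_1(m_1), …, F_k(m_k))` are taken with large and
uneven multiplicities, so that the size of the exceptional set says nothing about them.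

Proof. Own tool `Pool.Agent.U405.RS`. A thin set `S` has at most `B g^ω(n) |S| / n` multiples of `n` for every `n ≤ x^δ` (for the
shifted primes by the Brun-Titchmarsh inequality of the library). Write `m_i = n_i w_i` with `n_i` composed of the primes
`≤ z = x^(1 / J)`, `J` a small multiple of `log log x`. By Rankin's method one has `n_i ≤ x^η` for most `m_i` in `S_i`; and `w_i` has at
most `J` prime factors and exponents `≤ J`, so that it is determined by `F_i(w_i)` up to `x^o(1)` possibilities. A slab of the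
exceptional set is then covered by the fibres over one coordinate, and the saving `X^c` of the exceptional set is larger than the loss
`x^(k (1 - τ))` from the short intervals. The bound for the exceptional tuples of integers is the starting theorem behind `AlmostAllTranslates`.
-/

set_option autoImplicit false

open scoped PeriodPair

namespace Pool.Agent.Results.MP_8da9ea_nt.ThinTuples

open Pool.Agent.U405.RS
open Pool.Agent.Results.MP_8da9ea_nt.AlmostAllTranslates (zeta logarithms points FreeOverPoints IsTranslate)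
open Pool.Agent.Results.MP_8da9ea_nt.MultiplicativeValues (aint_int)

/-- **The elliptico-toric inequality in bounded degree over thin sets.** Let `Λ` be a lattice with rational invariants, `n + s ≥ 1`,
`A_i ≠ 0` and `B_i` integers, `q`, `δ`, `d` natural numbers. There is `c > 0` such that for all `F_1, …, F_(n+s)` in the class
`PM`, all `U` and, uniformly, all `w ∈ ℂ^q` and all `(z, y)` in `ℂⁿ × ℂˢ`, in the sense of `ThinAll c F U`
(with a saving of `(log x)^U`, uniformly in the parameter, for almost all `m` in all products `S_1 × ⋯ × S_k` of sets of shifted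
primes `p + a_i`, `p ≤ x`, and intervals `(u, u + h]`, `u ≤ x`, `x^τ ≤ h ≤ x`, whenever `0 < τ ≤ 1`, `k τ > k - c`), `k = n + s`,
all `F_i(m_i)` are at least `2` and all translates of `(z, y)` by logarithms of the point given by `α_i = A_i F_i(m_i) + B_i` are
free over their points and `w`. Euler's function, the sum of the divisors and the identity are in the class. -/
theorem result :
    (∀ (Λ : PeriodPair) (a b : ℚ), Λ.g₂ = a → Λ.g₃ = b → ∀ (n s q : ℕ), 1 ≤ n + s → ∀ (δ d : ℕ)
      (A B : Fin (n + s) → ℤ), (∀ i, A i ≠ 0) → ∃ c : ℝ, 0 < c ∧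
      ∀ F : Fin (n + s) → ℕ → ℕ, (∀ i, PM (F i)) → ∀ U : ℕ,
        ThinAll c F U (fun (r : (Fin q → ℂ) × (Fin n → ℂ) × (Fin s → ℂ)) (v : Fin (n + s) → ℕ) => (∀ i, 2 ≤ v i) ∧
          ∀ (p : Fin n → ℂ) (t : Fin s → ℂ), IsTranslate Λ r.2.1 r.2.2 (fun i => ((A i * v i + B i : ℤ) : ℂ)) p t →
            FreeOverPoints Λ δ d r.1 p t)) ∧
    (PM Nat.totient ∧ PM (fun m => ∑ d ∈ m.divisors, d) ∧ PM (fun m => m)) := by
  refine ⟨fun Λ a b ha hb n s q hns δ d A B hA => ?_, examplesT⟩
  obtain ⟨c, hc, C, hC, h⟩ := Pool.Agent.Y916.Sch.tupP Λ a b ha hb n s q 1 δ d le_rfl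
  have hMm : Pool.Agent.Y916.Sl.Mm 1 = 1 := by rw [Pool.Agent.Y916.Sl.Mm_eq]
  rw [hMm, mul_one] at h
  obtain ⟨R, hR⟩ : ∃ R : ℕ, R = 1 + ∑ i, ((A i).natAbs + (B i).natAbs) := ⟨_, rfl⟩
  have hR1 : 1 ≤ R := by rw [hR]; omega
  refine ⟨c, hc, fun F hF U => thinAll_two hns hF hc (C * (R : ℝ) ^ (((n + s : ℕ) : ℝ) - c))
    (fun (r : (Fin q → ℂ) × (Fin n → ℂ) × (Fin s → ℂ)) (v : Fin (n + s) → ℕ) =>
      ∀ (p : Fin n → ℂ) (t : Fin s → ℂ), IsTranslate Λ r.2.1 r.2.2 (fun i => ((A i * v i + B i : ℤ) : ℂ)) p t →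
        FreeOverPoints Λ δ d r.1 p t) (fun r X hX => ?_) U⟩
  obtain ⟨w, z, y⟩ := r
  dsimp only
  obtain ⟨φ, hφ⟩ : ∃ φ : (Fin (n + s) → ℕ) → (Fin (n + s) → ℂ), φ = fun v i => ((A i * v i + B i : ℤ) : ℂ) := ⟨_, rfl⟩
  have hinj : Function.Injective φ := by
    intro v v' hv
    funext i
    have h1 : ((A i * v i + B i : ℤ) : ℂ) = ((A i * v' i + B i : ℤ) : ℂ) := by
      have := congrFun hv i
      rw [hφ] at this
      exact this
    have h2 : A i * v i + B i = A i * v' i + B i := by exact_mod_cast h1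
    have h3 : A i * ((v i : ℤ) - v' i) = 0 := by linarith
    rcases mul_eq_zero.1 h3 with h4 | h4
    · exact absurd h4 (hA i)
    · exact_mod_cast sub_eq_zero.1 h4
  have hX0 : (0 : ℝ) ≤ X := Nat.cast_nonneg X
  have hR0 : (0 : ℝ) ≤ R := Nat.cast_nonneg R
  obtain ⟨hf, hle⟩ := h w z y (R * X) (Nat.mul_pos hR1 hX)
  have e1 : C * ((R * X : ℕ) : ℝ) ^ (((n + s : ℕ) : ℝ) - c) =
      C * (R : ℝ) ^ (((n + s : ℕ) : ℝ) - c) * (X : ℝ) ^ (((n + s : ℕ) : ℝ) - c) := by
    rw [Nat.cast_mul, Real.mul_rpow hR0 hX0, mul_assoc]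
  rw [← e1]
  refine le_trans (Nat.cast_le.2 ?_) hle
  refine Set.ncard_le_ncard_of_injOn φ ?_ hinj.injOn hf
  rintro v ⟨hv1, hv2⟩
  refine ⟨fun i => ?_, ?_⟩
  · rw [hφ]
    refine aint_int ?_
    have e2 : (((A i).natAbs + (B i).natAbs : ℕ) : ℝ) ≤ R := by
      rw [hR]
      have := Finset.single_le_sum (f := fun i => (A i).natAbs + (B i).natAbs) (fun i _ => Nat.zero_le _) (Finset.mem_univ i)
      exact_mod_cast this.trans (Nat.le_add_left _ _)
    have e3 : (1 : ℝ) ≤ X := by exact_mod_cast hX
    have e4 : ((v i : ℕ) : ℝ) ≤ X := by exact_mod_cast (hv1 i).2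
    have e5 : |((A i * v i + B i : ℤ) : ℝ)| ≤ |((A i : ℤ) : ℝ)| * v i + |((B i : ℤ) : ℝ)| := by
      push_cast
      refine (abs_add_le _ _).trans ?_
      rw [abs_mul, Nat.abs_cast]
    have e6 : (((A i).natAbs + (B i).natAbs : ℕ) : ℝ) = |((A i : ℤ) : ℝ)| + |((B i : ℤ) : ℝ)| := by
      push_cast
      rw [Nat.cast_natAbs, Nat.cast_natAbs, Int.cast_abs, Int.cast_abs]
    push_cast
    rw [e6] at e2
    have e7 := abs_nonneg ((A i : ℤ) : ℝ)
    have e8 := abs_nonneg ((B i : ℤ) : ℝ)
    push_cast at e5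
    nlinarith [mul_le_mul_of_nonneg_left e4 e7, mul_le_mul_of_nonneg_left e3 e8, mul_le_mul_of_nonneg_right e2 hX0]
  · rw [hφ]
    push Not at hv2
    obtain ⟨p, t, hu, hF'⟩ := hv2
    exact ⟨p, t, hu.1, hu.2, hF'⟩

end Pool.Agent.Results.MP_8da9ea_nt.ThinTuples
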